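import Mathlib
import Pool.Agent.Helper133.Brouwer

/-!
# The Nordhaus-Gaddum maximum of the product of independent domination numbers

Let `A + 1 = i(G)` and `B + 1 = i(Gᶜ)` with `A, B ≥ 1`.  For every vertex `w` choose a maximal
independent set `J w` and a maximal clique `C w` which contain `w`.  Let `P` (respectively `Q`) be
the matrix of the relation `v ∈ J w`, `v ≠ w` (respectively `v ∈ C w`, `v ≠ w`).  By Brouwer's
theorem there are probability vectors `s, t` and numbers `a ≥ A`, `b ≥ B` with `P s = a t` and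
`Q t = b s`.  Because a maximal independent set and a maximal clique meet in at most one vertex,
`∑ (s + a t)(t + b s) ≤ 1`, and this gives `(√a + √b)² ≤ n`.  The bound is attained by split
graphs, and the maximum of `(A + 1)(B + 1)` under the bound is computed for every `n`.
-/

namespace Pool.Agent.Results.MP_04d992_co.ExactMaximum

open Finset

variable {V : Type} [Fintype V] [DecidableEq V]

/-- An independent dominating set. -/
def IndDom {V : Type} (G : SimpleGraph V) (D : Finset V) : Prop :=
  (∀ u ∈ D, ∀ v ∈ D, ¬ G.Adj u v) ∧ ∀ v, v ∉ D → ∃ u ∈ D, G.Adj u v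

/-- The independent domination number. -/
noncomputable def indDom {V : Type} (G : SimpleGraph V) : ℕ :=
  sInf {k | ∃ D : Finset V, IndDom G D ∧ D.card = k}

/-- The maximum of `i(G) i(Gᶜ)` over the graphs on `n` vertices. -/
noncomputable def M (n : ℕ) : ℕ :=
  sSup {m | ∃ G : SimpleGraph (Fin n), m = indDom G * indDom Gᶜ}

/-! ### Existence of maximal independent sets -/

theorem exists_mis (G : SimpleGraph V) (v : V) : ∃ D : Finset V, v ∈ D ∧ IndDom G D := by
  classical
  obtain ⟨D, hD, hmax⟩ := Finset.exists_max_image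
    (univ.filter fun D : Finset V => v ∈ D ∧ ∀ a ∈ D, ∀ b ∈ D, ¬ G.Adj a b) Finset.card
    ⟨{v}, by simp⟩
  simp only [mem_filter, mem_univ, true_and] at hD hmax
  refine ⟨D, hD.1, hD.2, ?_⟩
  intro x hx
  by_contra hn
  push Not at hn
  have h1 : v ∈ insert x D ∧ ∀ a ∈ insert x D, ∀ b ∈ insert x D, ¬ G.Adj a b := by
    refine ⟨mem_insert_of_mem hD.1, ?_⟩
    intro a ha b hb hab
    rcases mem_insert.mp ha with rfl | ha'
    · rcases mem_insert.mp hb with rfl | hb'
      · exact G.loopless.irrefl _ hab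
      · exact hn b hb' hab.symm
    · rcases mem_insert.mp hb with rfl | hb'
      · exact hn a ha' hab
      · exact hD.2 a ha' b hb' hab
  have h2 := hmax _ h1
  rw [card_insert_of_notMem hx] at h2
  omega

/-! ### The fixed point -/

omit [DecidableEq V] in
theorem fixed (N : V → V → ℝ) (h0 : ∀ v w, 0 ≤ N v w) (h1 : ∀ w, 1 ≤ ∑ v, N v w) [Nonempty V] :
    ∃ s : V → ℝ, (∀ v, 0 ≤ s v) ∧ ∑ v, s v = 1 ∧ ∃ l : ℝ, ∀ v, ∑ w, N v w * s w = l * s v := by
  classical
  set u : (V → ℝ) → V → ℝ := fun x v => max (x v) 0 + max (1 - ∑ w, max (x w) 0) 0 with hu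
  have hu0 : ∀ x v, 0 ≤ u x v := fun x v => add_nonneg (le_max_right _ _) (le_max_right _ _)
  have husum : ∀ x, 1 ≤ ∑ v, u x v := by
    intro x
    simp only [hu, sum_add_distrib, sum_const, card_univ, nsmul_eq_mul]
    have h2 : (1 : ℝ) ≤ Fintype.card V := by exact_mod_cast Fintype.card_pos
    have h3 : 0 ≤ max (1 - ∑ w, max (x w) 0) 0 := le_max_right _ _
    have h4 : 1 - ∑ w, max (x w) 0 ≤ max (1 - ∑ w, max (x w) 0) 0 := le_max_left _ _
    nlinarith
  have huc : Continuous u := by
    rw [hu]
    fun_prop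
  set g : (V → ℝ) → V → ℝ := fun x v => ∑ w, N v w * u x w with hg
  have hg0 : ∀ x v, 0 ≤ g x v := fun x v => sum_nonneg fun w _ => mul_nonneg (h0 _ _) (hu0 _ _)
  have hgsum : ∀ x, 1 ≤ ∑ v, g x v := by
    intro x
    have e : ∑ v, g x v = ∑ w, (∑ v, N v w) * u x w := by
      simp only [hg]
      rw [sum_comm]
      exact sum_congr rfl fun w _ => by rw [sum_mul]
    rw [e]
    calc (1 : ℝ) ≤ ∑ w, u x w := husum x
      _ ≤ _ := sum_le_sum fun w _ => le_mul_of_one_le_left (hu0 _ _) (h1 w)
  have hgc : Continuous g := by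
    rw [hg]
    refine continuous_pi fun v => continuous_finsetSum _ fun w _ => ?_
    exact continuous_const.mul ((continuous_apply w).comp huc)
  set f : (V → ℝ) → V → ℝ := fun x v => g x v / ∑ w, g x w with hf
  have hfc : Continuous f := by
    rw [hf]
    refine continuous_pi fun v => ?_
    refine Continuous.div ((continuous_apply v).comp hgc)
      (continuous_finsetSum _ fun w _ => (continuous_apply w).comp hgc) ?_
    intro x
    have := hgsum x
    linarith
  have hf0 : ∀ x v, 0 ≤ f x v := fun x v =>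
    div_nonneg (hg0 _ _) (le_trans zero_le_one (hgsum x))
  have hf1 : ∀ x, ∑ v, f x v = 1 := by
    intro x
    simp only [hf]
    rw [← sum_div]
    exact div_self (by have := hgsum x; linarith)
  obtain ⟨s, hs⟩ := Pool.Agent.Helper133.Brouwer.brouwer f hfc 1 (by
    intro x
    rw [pi_norm_le_iff_of_nonneg zero_le_one]
    intro v
    rw [Real.norm_eq_abs, abs_of_nonneg (hf0 x v), ← hf1 x]
    exact single_le_sum (fun w _ => hf0 x w) (mem_univ v))
  have hs0 : ∀ v, 0 ≤ s v := fun v => by rw [← hs]; exact hf0 _ _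
  have hs1 : ∑ v, s v = 1 := by rw [← hs]; exact hf1 _
  have hus : u s = s := by
    funext v
    simp only [hu]
    have e : ∑ w, max (s w) 0 = 1 := by
      rw [← hs1]
      exact sum_congr rfl fun w _ => max_eq_left (hs0 w)
    rw [e, sub_self, max_self, add_zero, max_eq_left (hs0 v)]
  refine ⟨s, hs0, hs1, ∑ w, g s w, fun v => ?_⟩
  have e := congrFun hs v
  have hne : (∑ w, g s w) ≠ 0 := by have := hgsum s; linarith
  simp only [hf] at e
  rw [div_eq_iff hne] at e
  have e2 : g s v = ∑ w, N v w * s w := by simp only [hg, hus]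
  rw [← e2, e, mul_comm]

/-! ### The main inequality -/

theorem main_real (G : SimpleGraph V) (A B : ℕ) (hA1 : 1 ≤ A) (hB1 : 1 ≤ B)
    (hA : ∀ D, IndDom G D → A + 1 ≤ D.card) (hB : ∀ D, IndDom Gᶜ D → B + 1 ≤ D.card)
    [Nonempty V] : (√(A : ℝ) + √(B : ℝ)) ^ 2 ≤ Fintype.card V := by
  classical
  choose J hJv hJ using exists_mis G
  choose C hCv hC using exists_mis Gᶜ
  have hJc : ∀ w, (A : ℝ) + 1 ≤ (J w).card := fun w => by exact_mod_cast hA _ (hJ w)
  have hCc : ∀ w, (B : ℝ) + 1 ≤ (C w).card := fun w => by exact_mod_cast hB _ (hC w)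
  have hmeet : ∀ w u, (((J w) ∩ (C u)).card : ℝ) ≤ 1 := by
    intro w u
    have : ((J w) ∩ (C u)).card ≤ 1 := by
      rw [card_le_one]
      intro a ha b hb
      by_contra hab
      have h1 := (hJ w).1 a (mem_inter.mp ha).1 b (mem_inter.mp hb).1
      have h2 := (hC u).1 a (mem_inter.mp ha).2 b (mem_inter.mp hb).2
      exact h2 ((SimpleGraph.compl_adj _ _ _).mpr ⟨hab, h1⟩)
    exact_mod_cast this
  -- the indicator functions
  set j : V → V → ℝ := fun v w => if v ∈ J w then 1 else 0 with hj
  set c : V → V → ℝ := fun v w => if v ∈ C w then 1 else 0 with hc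
  set e : V → V → ℝ := fun v w => if v = w then 1 else 0 with he
  have hj0 : ∀ v w, 0 ≤ j v w - e v w := by
    intro v w
    simp only [hj, he]
    by_cases h : v = w
    · subst h; simp [hJv]
    · simp only [h, if_false, sub_zero]; split_ifs <;> norm_num
  have hc0 : ∀ v w, 0 ≤ c v w - e v w := by
    intro v w
    simp only [hc, he]
    by_cases h : v = w
    · subst h; simp [hCv]
    · simp only [h, if_false, sub_zero]; split_ifs <;> norm_num
  have hesum : ∀ w, ∑ v, e v w = 1 := by
    intro w; simp [he]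
  have hjsum : ∀ w, (A : ℝ) ≤ ∑ v, (j v w - e v w) := by
    intro w
    rw [sum_sub_distrib, hesum]
    have : ∑ v, j v w = (J w).card := by simp [hj]
    rw [this]
    linarith [hJc w]
  have hcsum : ∀ w, (B : ℝ) ≤ ∑ v, (c v w - e v w) := by
    intro w
    rw [sum_sub_distrib, hesum]
    have : ∑ v, c v w = (C w).card := by simp [hc]
    rw [this]
    linarith [hCc w]
  have hA' : (1 : ℝ) ≤ A := by exact_mod_cast hA1
  have hB' : (1 : ℝ) ≤ B := by exact_mod_cast hB1
  set T : (V → ℝ) → V → ℝ := fun x v => ∑ w, (j v w - e v w) * x w with hT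
  set R : (V → ℝ) → V → ℝ := fun x v => ∑ w, (c v w - e v w) * x w with hR
  have hTsum : ∀ x : V → ℝ, (∀ v, 0 ≤ x v) → (A : ℝ) * ∑ v, x v ≤ ∑ v, T x v := by
    intro x hx
    simp only [hT]
    rw [sum_comm, mul_sum]
    refine sum_le_sum fun w _ => ?_
    rw [← sum_mul]
    exact mul_le_mul_of_nonneg_right (hjsum w) (hx w)
  have hRsum : ∀ x : V → ℝ, (∀ v, 0 ≤ x v) → (B : ℝ) * ∑ v, x v ≤ ∑ v, R x v := by
    intro x hx
    simp only [hR]
    rw [sum_comm, mul_sum]
    refine sum_le_sum fun w _ => ?_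
    rw [← sum_mul]
    exact mul_le_mul_of_nonneg_right (hcsum w) (hx w)
  obtain ⟨s, hs0, hs1, l, hl⟩ := fixed
    (fun v w => ∑ u, (c v u - e v u) * (j u w - e u w))
    (fun v w => sum_nonneg fun u _ => mul_nonneg (hc0 _ _) (hj0 _ _))
    (fun w => by
      rw [sum_comm]
      calc (1 : ℝ) ≤ A := hA'
        _ ≤ ∑ u, (j u w - e u w) := hjsum w
        _ ≤ ∑ u, ∑ v, (c v u - e v u) * (j u w - e u w) := by
            refine sum_le_sum fun u _ => ?_
            rw [← sum_mul]
            exact le_mul_of_one_le_left (hj0 _ _) (hB'.trans (hcsum u)))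
  have hRT : ∀ v, R (T s) v = l * s v := by
    intro v
    rw [← hl v]
    simp only [hR, hT]
    simp only [mul_sum, sum_mul]
    rw [sum_comm]
    refine sum_congr rfl fun w _ => sum_congr rfl fun u _ => by ring
  set p : V → ℝ := T s with hp
  have hp0 : ∀ v, 0 ≤ p v := fun v => sum_nonneg fun w _ => mul_nonneg (hj0 _ _) (hs0 _)
  set a : ℝ := ∑ v, p v with ha
  have haA : (A : ℝ) ≤ a := by
    have := hTsum s hs0
    rwa [hs1, mul_one] at this
  have ha0 : 0 < a := by linarith
  set t : V → ℝ := fun v => p v / a with ht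
  have ht0 : ∀ v, 0 ≤ t v := fun v => div_nonneg (hp0 v) ha0.le
  have ht1 : ∑ v, t v = 1 := by
    simp only [ht]
    rw [← sum_div]
    exact div_self ha0.ne'
  set q : V → ℝ := R t with hq
  have hq0 : ∀ v, 0 ≤ q v := fun v => sum_nonneg fun w _ => mul_nonneg (hc0 _ _) (ht0 _)
  set b : ℝ := ∑ v, q v with hb
  have hbB : (B : ℝ) ≤ b := by
    have := hRsum t ht0
    rwa [ht1, mul_one] at this
  have hb0 : 0 < b := by linarith
  have hqs : ∀ v, q v = b * s v := by
    have h1 : ∀ v, q v = l / a * s v := by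
      intro v
      have : q v = R p v / a := by
        simp only [hq, hR, ht]
        rw [sum_div]
        exact sum_congr rfl fun w _ => by ring
      rw [this, hRT v]
      ring
    have h2 : b = l / a := by
      rw [hb, sum_congr rfl fun v _ => h1 v, ← mul_sum, hs1, mul_one]
    intro v
    rw [h1 v, ← h2]
  have hpt : ∀ v, p v = a * t v := by
    intro v
    simp only [ht]
    field_simp
  -- the inequality for the intersections
  have hjs : ∀ v, ∑ w, j v w * s w = s v + p v := by
    intro v
    have : p v = ∑ w, (j v w - e v w) * s w := rfl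
    rw [this]
    simp only [sub_mul, sum_sub_distrib]
    have h2 : ∑ w, e v w * s w = s v := by simp [he]
    rw [h2]
    ring
  have hct : ∀ v, ∑ w, c v w * t w = t v + q v := by
    intro v
    have : q v = ∑ w, (c v w - e v w) * t w := rfl
    rw [this]
    simp only [sub_mul, sum_sub_distrib]
    have h2 : ∑ w, e v w * t w = t v := by simp [he]
    rw [h2]
    ring
  have hK : ∑ v, (s v + p v) * (t v + q v) ≤ 1 := by
    calc ∑ v, (s v + p v) * (t v + q v)
        = ∑ v, (∑ w, j v w * s w) * (∑ u, c v u * t u) :=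
          sum_congr rfl fun v _ => by rw [hjs, hct]
      _ = ∑ w, ∑ u, s w * t u * (((J w) ∩ (C u)).card : ℝ) := by
          have h3 : ∀ w u, (((J w) ∩ (C u)).card : ℝ) = ∑ v, j v w * c v u := by
            intro w u
            have h4 : ∀ v, j v w * c v u = if v ∈ (J w) ∩ (C u) then (1 : ℝ) else 0 := by
              intro v
              simp only [hj, hc]
              by_cases h5 : v ∈ J w <;> by_cases h6 : v ∈ C u <;> simp [h5, h6]
            rw [sum_congr rfl fun v _ => h4 v, sum_boole]
            congr 2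
            ext v
            simp
          simp only [h3, sum_mul_sum]
          rw [sum_comm]
          refine sum_congr rfl fun w _ => ?_
          rw [sum_comm]
          refine sum_congr rfl fun u _ => ?_
          rw [mul_sum]
          exact sum_congr rfl fun v _ => by ring
      _ ≤ ∑ w, ∑ u, s w * t u := by
          refine sum_le_sum fun w _ => sum_le_sum fun u _ => ?_
          exact mul_le_of_le_one_right (mul_nonneg (hs0 _) (ht0 _)) (hmeet w u)
      _ = 1 := by
          simp only [← mul_sum, ht1, mul_one, hs1]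
  set α : ℝ := √a with hα
  set β : ℝ := √b with hβ
  have hα0 : 0 < α := Real.sqrt_pos.mpr ha0
  have hβ0 : 0 < β := Real.sqrt_pos.mpr hb0
  have hα2 : α ^ 2 = a := Real.sq_sqrt ha0.le
  have hβ2 : β ^ 2 = b := Real.sq_sqrt hb0.le
  have hpoint : ∀ v, (β * s v + α * t v) ^ 2 ≤ (s v + p v) * (t v + q v) := by
    intro v
    rw [hpt v, hqs v, ← hα2, ← hβ2]
    have h7 : 0 ≤ s v * t v := mul_nonneg (hs0 v) (ht0 v)
    nlinarith [mul_nonneg h7 (sq_nonneg (α * β - 1))]
  have hS : ∑ v, (β * s v + α * t v) ^ 2 ≤ 1 :=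
    (sum_le_sum fun v _ => hpoint v).trans hK
  have hT1 : ∑ v, (β * s v + α * t v) = β + α := by
    rw [sum_add_distrib, ← mul_sum, ← mul_sum, hs1, ht1, mul_one, mul_one]
  have hCS : (β + α) ^ 2 ≤ Fintype.card V := by
    have h8 := sq_sum_le_card_mul_sum_sq (s := (univ : Finset V))
      (f := fun v => β * s v + α * t v)
    rw [hT1, card_univ] at h8
    have h9 : (0 : ℝ) ≤ Fintype.card V := Nat.cast_nonneg _
    nlinarith
  have h10 : √(A : ℝ) ≤ α := Real.sqrt_le_sqrt haA
  have h11 : √(B : ℝ) ≤ β := Real.sqrt_le_sqrt hbB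
  have h12 : 0 ≤ √(A : ℝ) := Real.sqrt_nonneg _
  have h13 : 0 ≤ √(B : ℝ) := Real.sqrt_nonneg _
  calc (√(A : ℝ) + √(B : ℝ)) ^ 2 ≤ (β + α) ^ 2 := by
        apply pow_le_pow_left₀ (add_nonneg h12 h13)
        linarith
    _ ≤ _ := hCS

theorem main_nat (G : SimpleGraph V) (A B : ℕ) (hA1 : 1 ≤ A) (hB1 : 1 ≤ B)
    (hA : ∀ D, IndDom G D → A + 1 ≤ D.card) (hB : ∀ D, IndDom Gᶜ D → B + 1 ≤ D.card)
    [Nonempty V] : ∃ d : ℕ, Fintype.card V = A + B + d ∧ 4 * (A * B) ≤ d ^ 2 := by
  have h := main_real G A B hA1 hB1 hA hB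
  set x := √(A : ℝ) with hx
  set y := √(B : ℝ) with hy
  have hx2 : x ^ 2 = A := Real.sq_sqrt (Nat.cast_nonneg _)
  have hy2 : y ^ 2 = B := Real.sq_sqrt (Nat.cast_nonneg _)
  have hx0 : 0 ≤ x := Real.sqrt_nonneg _
  have hy0 : 0 ≤ y := Real.sqrt_nonneg _
  have h1 : (A : ℝ) + B + 2 * (x * y) ≤ Fintype.card V := by nlinarith
  have h2 : A + B ≤ Fintype.card V := by
    have : (A : ℝ) + B ≤ Fintype.card V := by nlinarith [mul_nonneg hx0 hy0]
    exact_mod_cast this
  refine ⟨Fintype.card V - (A + B), by omega, ?_⟩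
  have h3 : ((Fintype.card V - (A + B) : ℕ) : ℝ) = Fintype.card V - (A + B) := by
    rw [Nat.cast_sub h2]; push_cast; ring
  have h4 : (4 * (A * B) : ℝ) ≤ ((Fintype.card V - (A + B) : ℕ) : ℝ) ^ 2 := by
    rw [h3, ← hx2, ← hy2]
    have h5 : 2 * (x * y) ≤ Fintype.card V - ((A : ℝ) + B) := by linarith
    have h6 : 0 ≤ 2 * (x * y) := by positivity
    calc (4 * (x ^ 2 * y ^ 2) : ℝ) = (2 * (x * y)) ^ 2 := by ring
      _ ≤ (Fintype.card V - ((A : ℝ) + B)) ^ 2 := pow_le_pow_left₀ h6 h5 2
      _ = _ := by rw [hx2, hy2]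
  exact_mod_cast h4

/-! ### Arithmetic -/

theorem num0 (k A B d : ℤ) (hA : 1 ≤ A) (hB : 1 ≤ B) (hd : 0 ≤ d) (hn : 4 * k = A + B + d)
    (h : 4 * (A * B) ≤ d ^ 2) : (A + 1) * (B + 1) ≤ (k + 1) ^ 2 := by
  have h1 : 4 * (A * B) ≤ (A + B) ^ 2 := by nlinarith [sq_nonneg (A - B)]
  have h2 : A + B - 1 ≤ A * B := by nlinarith [mul_nonneg (sub_nonneg.mpr hA) (sub_nonneg.mpr hB)]
  obtain ⟨S, hS⟩ : ∃ S, S = A + B := ⟨_, rfl⟩
  obtain ⟨P, hP⟩ : ∃ P, P = A * B := ⟨_, rfl⟩
  have e : (A + 1) * (B + 1) = P + S + 1 := by rw [hS, hP]; ring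
  rw [e]
  rw [← hS] at h1 h2 hn
  rw [← hP] at h1 h2 h
  have hS2 : 2 ≤ S := by omega
  rcases le_or_gt S (2 * k) with c | c
  · nlinarith
  · have hk : 3 ≤ k := by
      by_contra hk
      push Not at hk
      have : d ≤ 2 * k - 1 := by omega
      have hd2 : d ^ 2 ≤ (2 * k - 1) ^ 2 := by nlinarith
      nlinarith
    have h3 : (d - 2) ^ 2 ≤ (2 * k - 3) ^ 2 := by
      have : d ≤ 2 * k - 1 := by omega
      nlinarith
    nlinarith

theorem num2 (k A B d : ℤ) (hA : 1 ≤ A) (hB : 1 ≤ B) (hd : 0 ≤ d) (hn : 4 * k + 2 = A + B + d)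
    (h : 4 * (A * B) ≤ d ^ 2) : (A + 1) * (B + 1) ≤ (k + 1) * (k + 2) := by
  have h1 : 4 * (A * B) ≤ (A + B) ^ 2 := by nlinarith [sq_nonneg (A - B)]
  have h2 : A + B - 1 ≤ A * B := by nlinarith [mul_nonneg (sub_nonneg.mpr hA) (sub_nonneg.mpr hB)]
  obtain ⟨S, hS⟩ : ∃ S, S = A + B := ⟨_, rfl⟩
  obtain ⟨P, hP⟩ : ∃ P, P = A * B := ⟨_, rfl⟩
  have e : (A + 1) * (B + 1) = P + S + 1 := by rw [hS, hP]; ring
  rw [e]
  rw [← hS] at h1 h2 hn
  rw [← hP] at h1 h2 h
  have hS2 : 2 ≤ S := by omega
  rcases le_or_gt S (2 * k + 1) with c | c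
  · have h4 : 4 * (P + S + 1) ≤ (2 * k + 3) ^ 2 := by nlinarith
    have h5 : 4 * (P + S + 1) ≤ 4 * (k ^ 2 + 3 * k + 2) + 1 := by nlinarith
    have h6 : P + S + 1 ≤ k ^ 2 + 3 * k + 2 := by omega
    nlinarith
  · have hd1 : d ≤ 2 * k := by omega
    have hk : 3 ≤ k := by
      by_contra hk
      push Not at hk
      have hd2 : d ^ 2 ≤ (2 * k) ^ 2 := by nlinarith
      nlinarith
    have h3 : (d - 2) ^ 2 ≤ (2 * k - 2) ^ 2 := by nlinarith
    nlinarith

theorem num1 (k A B d : ℤ) (hA : 1 ≤ A) (hB : 1 ≤ B) (hd : 0 ≤ d) (hn : 4 * k + 1 = A + B + d)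
    (h : 4 * (A * B) ≤ d ^ 2) : (A + 1) * (B + 1) ≤ (k + 1) ^ 2 ∨
      (A + B = 2 * k + 1 ∧ A * B = k ^ 2) := by
  have h1 : 4 * (A * B) ≤ (A + B) ^ 2 := by nlinarith [sq_nonneg (A - B)]
  have h2 : A + B - 1 ≤ A * B := by nlinarith [mul_nonneg (sub_nonneg.mpr hA) (sub_nonneg.mpr hB)]
  obtain ⟨S, hS⟩ : ∃ S, S = A + B := ⟨_, rfl⟩
  obtain ⟨P, hP⟩ : ∃ P, P = A * B := ⟨_, rfl⟩
  have e : (A + 1) * (B + 1) = P + S + 1 := by rw [hS, hP]; ring
  rw [e]
  rw [← hS] at h1 h2 hn
  rw [← hP] at h1 h2 h
  have hS2 : 2 ≤ S := by omega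
  rw [← hS, ← hP]
  rcases le_or_gt S (2 * k) with c | c
  · left; nlinarith
  · rcases eq_or_lt_of_le (Int.add_one_le_of_lt c) with c' | c'
    · have hd1 : d = 2 * k := by omega
      have h4 : 4 * P ≤ 4 * k ^ 2 := by rw [hd1] at h; nlinarith
      rcases eq_or_lt_of_le (show P ≤ k ^ 2 by omega) with g | g
      · right; exact ⟨by omega, g⟩
      · left; nlinarith
    · left
      have hd1 : d ≤ 2 * k - 1 := by omega
      have hk : 3 ≤ k := by
        by_contra hk
        push Not at hk
        have hd2 : d ^ 2 ≤ (2 * k - 1) ^ 2 := by nlinarith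
        nlinarith
      have h3 : (d - 2) ^ 2 ≤ (2 * k - 3) ^ 2 := by nlinarith
      nlinarith

theorem num3 (k A B d : ℤ) (hA : 1 ≤ A) (hB : 1 ≤ B) (hd : 0 ≤ d) (hn : 4 * k + 3 = A + B + d)
    (h : 4 * (A * B) ≤ d ^ 2) : (A + 1) * (B + 1) ≤ (k + 1) * (k + 2) ∨
      (A + B = 2 * k + 2 ∧ A * B = k ^ 2 + k) := by
  have h1 : 4 * (A * B) ≤ (A + B) ^ 2 := by nlinarith [sq_nonneg (A - B)]
  have h2 : A + B - 1 ≤ A * B := by nlinarith [mul_nonneg (sub_nonneg.mpr hA) (sub_nonneg.mpr hB)]
  obtain ⟨S, hS⟩ : ∃ S, S = A + B := ⟨_, rfl⟩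
  obtain ⟨P, hP⟩ : ∃ P, P = A * B := ⟨_, rfl⟩
  have e : (A + 1) * (B + 1) = P + S + 1 := by rw [hS, hP]; ring
  rw [e]
  rw [← hS] at h1 h2 hn
  rw [← hP] at h1 h2 h
  have hS2 : 2 ≤ S := by omega
  rw [← hS, ← hP]
  rcases le_or_gt S (2 * k + 1) with c | c
  · left
    have h4 : 4 * (P + S + 1) ≤ (2 * k + 3) ^ 2 := by nlinarith
    have h5 : 4 * (P + S + 1) ≤ 4 * (k ^ 2 + 3 * k + 2) + 1 := by nlinarith
    have h6 : P + S + 1 ≤ k ^ 2 + 3 * k + 2 := by omega
    nlinarith
  · rcases eq_or_lt_of_le (Int.add_one_le_of_lt c) with c' | c'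
    · have hd1 : d = 2 * k + 1 := by omega
      have h4 : 4 * P ≤ 4 * (k ^ 2 + k) + 1 := by rw [hd1] at h; nlinarith
      rcases eq_or_lt_of_le (show P ≤ k ^ 2 + k by omega) with g | g
      · right; exact ⟨by omega, g⟩
      · left; nlinarith
    · left
      have hd1 : d ≤ 2 * k := by omega
      have hk : 3 ≤ k := by
        by_contra hk
        push Not at hk
        have hd2 : d ^ 2 ≤ (2 * k) ^ 2 := by nlinarith
        nlinarith
      have h3 : (d - 2) ^ 2 ≤ (2 * k - 2) ^ 2 := by nlinarith
      nlinarith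

/-! ### Basic facts on the independent domination number -/

theorem indDom_le {V : Type} {G : SimpleGraph V} {D : Finset V} (h : IndDom G D) :
    indDom G ≤ D.card := Nat.sInf_le ⟨D, h, rfl⟩

theorem exists_indDom [Nonempty V] (G : SimpleGraph V) :
    ∃ D, IndDom G D ∧ D.card = indDom G := by
  have h : {k | ∃ D : Finset V, IndDom G D ∧ D.card = k}.Nonempty := by
    obtain ⟨D, -, hD⟩ := exists_mis G (Classical.arbitrary V)
    exact ⟨_, D, hD, rfl⟩
  exact Nat.sInf_mem h

theorem le_indDom [Nonempty V] {G : SimpleGraph V} {m : ℕ}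
    (h : ∀ D, IndDom G D → m ≤ D.card) : m ≤ indDom G := by
  obtain ⟨D, hD, e⟩ := exists_indDom G
  rw [← e]
  exact h D hD

theorem one_le_indDom [Nonempty V] (G : SimpleGraph V) : 1 ≤ indDom G := by
  refine le_indDom fun D hD => ?_
  rw [Nat.one_le_iff_ne_zero, Ne, card_eq_zero]
  rintro rfl
  obtain ⟨u, hu, -⟩ := hD.2 (Classical.arbitrary V) (by simp)
  simp at hu

theorem indDom_le_card [Nonempty V] (G : SimpleGraph V) : indDom G ≤ Fintype.card V := by
  obtain ⟨D, -, e⟩ := exists_indDom G
  rw [← e]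
  exact card_le_univ D

theorem bdd (n : ℕ) :
    BddAbove {m | ∃ G : SimpleGraph (Fin n), m = indDom G * indDom Gᶜ} := by
  rcases Nat.eq_zero_or_pos n with rfl | hn
  · refine ⟨indDom (⊥ : SimpleGraph (Fin 0)) * indDom (⊥ : SimpleGraph (Fin 0)), ?_⟩
    rintro m ⟨G, rfl⟩
    have h1 : G = ⊥ := Subsingleton.elim _ _
    have h2 : Gᶜ = ⊥ := Subsingleton.elim _ _
    rw [h2, h1]
  · have : Nonempty (Fin n) := ⟨⟨0, hn⟩⟩
    refine ⟨n * n, ?_⟩
    rintro m ⟨G, rfl⟩
    have h1 := indDom_le_card G
    have h2 := indDom_le_card Gᶜ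
    rw [Fintype.card_fin] at h1 h2
    exact Nat.mul_le_mul h1 h2

/-! ### The upper bound -/

theorem upper (n K : ℕ) (hn : 1 ≤ n) (hK : n ≤ K)
    (h : ∀ A B d : ℕ, 1 ≤ A → 1 ≤ B → n = A + B + d → 4 * (A * B) ≤ d ^ 2 →
      (A + 1) * (B + 1) ≤ K) : M n ≤ K := by
  have : Nonempty (Fin n) := ⟨⟨0, hn⟩⟩
  refine csSup_le' ?_
  rintro m ⟨G, rfl⟩
  have h1 := one_le_indDom G
  have h2 := one_le_indDom Gᶜ
  have h3 := indDom_le_card G
  have h4 := indDom_le_card Gᶜ
  rw [Fintype.card_fin] at h3 h4
  rcases Nat.eq_or_lt_of_le h1 with c1 | c1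
  · rw [← c1, one_mul]
    exact h4.trans hK
  · rcases Nat.eq_or_lt_of_le h2 with c2 | c2
    · rw [← c2, mul_one]
      exact h3.trans hK
    · obtain ⟨d, hd, hd2⟩ := main_nat G (indDom G - 1) (indDom Gᶜ - 1) (by omega) (by omega)
        (fun D hD => by have := indDom_le hD; omega) (fun D hD => by have := indDom_le hD; omega)
      rw [Fintype.card_fin] at hd
      have h5 := h _ _ d (by omega) (by omega) hd hd2
      rwa [show indDom G - 1 + 1 = indDom G by omega,
        show indDom Gᶜ - 1 + 1 = indDom Gᶜ by omega] at h5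

/-! ### The lower bound -/

theorem comap_ind {W : Type} [Fintype W] [DecidableEq W] {n : ℕ} (e : W ≃ Fin n)
    (G : SimpleGraph W) (p : ℕ) (hp : ∀ D, IndDom G D → p ≤ D.card) (D : Finset (Fin n))
    (hD : IndDom (G.comap e.symm) D) : p ≤ D.card := by
  have h := hp (D.map e.symm.toEmbedding) ⟨?_, ?_⟩
  · rwa [card_map] at h
  · intro u hu v hv
    rw [mem_map] at hu hv
    obtain ⟨a, ha, rfl⟩ := hu
    obtain ⟨b, hb, rfl⟩ := hv
    exact hD.1 a ha b hb
  · intro v hv
    have h1 : e v ∉ D := fun h2 => hv (mem_map.mpr ⟨e v, h2, by simp⟩)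
    obtain ⟨a, ha, hab⟩ := hD.2 (e v) h1
    refine ⟨e.symm a, mem_map.mpr ⟨a, ha, rfl⟩, ?_⟩
    rw [SimpleGraph.comap_adj, Equiv.symm_apply_apply] at hab
    exact hab

theorem le_M {W : Type} [Fintype W] [DecidableEq W] [Nonempty W] (G : SimpleGraph W) (n p q : ℕ)
    (hn : Fintype.card W = n) (hp : ∀ D, IndDom G D → p ≤ D.card)
    (hq : ∀ D, IndDom Gᶜ D → q ≤ D.card) : p * q ≤ M n := by
  have e : W ≃ Fin n := Fintype.equivFinOfCardEq hn
  have : Nonempty (Fin n) := ⟨e (Classical.arbitrary W)⟩
  have hc : (G.comap e.symm)ᶜ = Gᶜ.comap e.symm := by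
    ext a b
    simp only [SimpleGraph.compl_adj, SimpleGraph.comap_adj, ne_eq,
      EmbeddingLike.apply_eq_iff_eq]
  have h1 : p ≤ indDom (G.comap e.symm) := le_indDom fun D hD => comap_ind e G p hp D hD
  have h2 : q ≤ indDom (G.comap e.symm)ᶜ := le_indDom fun D hD => by
    rw [hc] at hD
    exact comap_ind e Gᶜ q hq D hD
  exact (Nat.mul_le_mul h1 h2).trans (le_csSup (bdd n) ⟨G.comap e.symm, rfl⟩)

theorem lower0 (n : ℕ) (hn : 1 ≤ n) : n ≤ M n := by
  have : Nonempty (Fin n) := ⟨⟨0, hn⟩⟩
  have h := le_M (⊤ : SimpleGraph (Fin n)) n 1 n (Fintype.card_fin n)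
    (fun D hD => (one_le_indDom _).trans (indDom_le hD)) (by
      intro D hD
      have h1 : D = univ := by
        ext v
        simp only [mem_univ, iff_true]
        by_contra hv
        obtain ⟨u, -, hu⟩ := hD.2 v hv
        rw [compl_top] at hu
        exact hu
      rw [h1, card_univ, Fintype.card_fin])
  rwa [one_mul] at h

/-- A split graph with independent part `Fin x` and clique `Fin y`. -/
def split {x y : ℕ} (R : Fin x → Fin y → Prop) : SimpleGraph (Fin x ⊕ Fin y) where
  Adj u v := match u, v with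
    | .inl _, .inl _ => False
    | .inl i, .inr j => R i j
    | .inr j, .inl i => R i j
    | .inr j, .inr j' => j ≠ j'
  symm := ⟨by
    rintro (i | j) (i' | j') h
    · exact h
    · exact h
    · exact h
    · exact Ne.symm h⟩
  loopless := ⟨by
    rintro (i | j) h
    · exact h
    · exact h rfl⟩

theorem lower (n A B a b : ℕ) (hA : 1 ≤ A) (hB : 1 ≤ B) (h : A * B ≤ a * b)
    (hn : n = A + a + B + b) : (A + 1) * (B + 1) ≤ M n := by
  classical
  have hAB : 1 ≤ A * B := Nat.mul_pos hA hB
  have ha : 1 ≤ a := by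
    rcases Nat.eq_zero_or_pos a with rfl | h'
    · rw [zero_mul] at h; omega
    · exact h'
  have hb : 1 ≤ b := by
    rcases Nat.eq_zero_or_pos b with rfl | h'
    · rw [mul_zero] at h; omega
    · exact h'
  set x := A + a with hx
  set y := B + b with hy
  have hy0 : 0 < y := by omega
  have hxy : x * B ≤ a * y := by rw [hx, hy]; nlinarith
  set R : Fin x → Fin y → Prop := fun i j => ∃ r, r < B ∧ (i.val * B + r) % y = j.val with hR
  have : Nonempty (Fin x ⊕ Fin y) := ⟨Sum.inr ⟨0, hy0⟩⟩
  -- each vertex of the independent part has many neighbours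
  have hdeg : ∀ i : Fin x, B ≤ (univ.filter fun j : Fin y => R i j).card := by
    intro i
    have h1 : (univ.image fun r : Fin B =>
        (⟨(i.val * B + r.val) % y, Nat.mod_lt _ hy0⟩ : Fin y)).card = B := by
      rw [card_image_of_injective, card_univ, Fintype.card_fin]
      intro r r' hrr
      simp only [Fin.mk.injEq] at hrr
      have h2 : r.val ≡ r'.val [MOD y] := Nat.ModEq.add_left_cancel' (i.val * B) hrr
      exact Fin.ext (Nat.ModEq.eq_of_lt_of_lt h2 (by omega) (by omega))
    calc B = _ := h1.symm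
      _ ≤ _ := by
        refine card_le_card ?_
        intro j hj
        rw [mem_image] at hj
        obtain ⟨r, -, rfl⟩ := hj
        simp only [mem_filter, mem_univ, true_and, hR]
        exact ⟨r.val, r.isLt, rfl⟩
  -- each vertex of the clique has few neighbours in the independent part
  have hcodeg : ∀ j : Fin y, A ≤ (univ.filter fun i : Fin x => ¬ R i j).card := by
    intro j
    have h1 : (univ.filter fun i : Fin x => R i j).card ≤ a := by
      have h2 : ∀ i : Fin x, R i j → ∃ q : Fin a, ∃ r, r < B ∧ i.val * B + r = q.val * y + j.val := by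
        rintro i ⟨r, hr, e⟩
        have h3 : i.val * B + r < a * y := by
          have h5 : (i.val + 1) * B ≤ x * B := Nat.mul_le_mul_right _ i.isLt
          nlinarith
        refine ⟨⟨(i.val * B + r) / y, Nat.div_lt_of_lt_mul (by rw [mul_comm y a]; exact h3)⟩, r, hr, ?_⟩
        have h4 := Nat.div_add_mod (i.val * B + r) y
        rw [e] at h4
        simp only
        rw [mul_comm _ y]
        exact h4.symm
      have : Nonempty (Fin a) := ⟨⟨0, ha⟩⟩
      choose! q hq using h2
      calc (univ.filter fun i : Fin x => R i j).card ≤ (univ : Finset (Fin a)).card := by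
            refine card_le_card_of_injOn q (fun _ _ => mem_coe.mpr (mem_univ _)) ?_
            intro i hi i' hi' hqq
            simp only [coe_filter, mem_univ, true_and, Set.mem_ofPred_eq] at hi hi'
            obtain ⟨r, hr, e⟩ := hq i hi
            obtain ⟨r', hr', e'⟩ := hq i' hi'
            rw [hqq, ← e'] at e
            apply Fin.ext
            have e1 : (r + B * i.val) / B = (r' + B * i'.val) / B := by
              rw [mul_comm B, mul_comm B, add_comm r, add_comm r', e]
            rw [Nat.add_mul_div_left _ _ (by omega), Nat.add_mul_div_left _ _ (by omega),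
              Nat.div_eq_of_lt hr, Nat.div_eq_of_lt hr'] at e1
            omega
        _ = a := by rw [card_univ, Fintype.card_fin]
    have h2 := card_filter_add_card_filter_not (s := (univ : Finset (Fin x))) (fun i => R i j)
    rw [card_univ, Fintype.card_fin] at h2
    omega
  have hcard : Fintype.card (Fin x ⊕ Fin y) = n := by
    rw [Fintype.card_sum, Fintype.card_fin, Fintype.card_fin]
    omega
  refine le_M (split R) n (A + 1) (B + 1) hcard ?_ ?_
  · intro D hD
    by_cases hj : ∃ j, Sum.inr j ∈ D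
    · obtain ⟨j, hj⟩ := hj
      have h1 : insert (Sum.inr j) ((univ.filter fun i : Fin x => ¬ R i j).map
          Function.Embedding.inl) ⊆ D := by
        intro u hu
        rw [mem_insert] at hu
        rcases hu with rfl | hu
        · exact hj
        · rw [mem_map] at hu
          obtain ⟨i, hi, rfl⟩ := hu
          simp only [mem_filter, mem_univ, true_and] at hi
          by_contra hn'
          obtain ⟨w, hw, hwi⟩ := hD.2 _ hn'
          rcases w with i' | j'
          · exact hwi
          · have : j' = j := by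
              by_contra hne
              exact hD.1 _ hw _ hj hne
            subst this
            exact hi hwi
      calc A + 1 ≤ ((univ.filter fun i : Fin x => ¬ R i j).map
              (Function.Embedding.inl (β := Fin y))).card + 1 := by
            rw [card_map]
            exact Nat.add_le_add_right (hcodeg j) 1
        _ = _ := by
            rw [← card_insert_of_notMem]
            rw [mem_map]
            rintro ⟨i, -, hi⟩
            simp at hi
        _ ≤ D.card := card_le_card h1
    · push Not at hj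
      have h1 : (univ : Finset (Fin x)).map (Function.Embedding.inl (β := Fin y)) ⊆ D := by
        intro u hu
        rw [mem_map] at hu
        obtain ⟨i, -, rfl⟩ := hu
        by_contra hn'
        obtain ⟨w, hw, hwi⟩ := hD.2 _ hn'
        rcases w with i' | j'
        · exact hwi
        · exact hj _ hw
      have h2 := card_le_card h1
      rw [card_map, card_univ, Fintype.card_fin] at h2
      omega
  · intro D hD
    by_cases hi : ∃ i, Sum.inl i ∈ D
    · obtain ⟨i, hi⟩ := hi
      have h1 : insert (Sum.inl i) ((univ.filter fun j : Fin y => R i j).map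
          Function.Embedding.inr) ⊆ D := by
        intro u hu
        rw [mem_insert] at hu
        rcases hu with rfl | hu
        · exact hi
        · rw [mem_map] at hu
          obtain ⟨j, hj, rfl⟩ := hu
          simp only [mem_filter, mem_univ, true_and] at hj
          by_contra hn'
          obtain ⟨w, hw, hwj⟩ := hD.2 _ hn'
          rw [SimpleGraph.compl_adj] at hwj
          rcases w with i' | j'
          · have : i' = i := by
              by_contra hne
              refine hD.1 _ hw _ hi ?_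
              rw [SimpleGraph.compl_adj]
              exact ⟨fun h' => hne (Sum.inl_injective h'), fun h' => h'⟩
            subst this
            exact hwj.2 hj
          · refine hwj.2 ?_
            exact fun h' => hwj.1 (by rw [h']; rfl)
      calc B + 1 ≤ ((univ.filter fun j : Fin y => R i j).map
              (Function.Embedding.inr (α := Fin x))).card + 1 := by
            rw [card_map]
            exact Nat.add_le_add_right (hdeg i) 1
        _ = _ := by
            rw [← card_insert_of_notMem]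
            rw [mem_map]
            rintro ⟨i, -, hi⟩
            simp at hi
        _ ≤ D.card := card_le_card h1
    · push Not at hi
      have h1 : (univ : Finset (Fin y)).map (Function.Embedding.inr (α := Fin x)) ⊆ D := by
        intro u hu
        rw [mem_map] at hu
        obtain ⟨j, -, rfl⟩ := hu
        by_contra hn'
        obtain ⟨w, hw, hwj⟩ := hD.2 _ hn'
        rw [SimpleGraph.compl_adj] at hwj
        rcases w with i' | j'
        · exact hi _ hw
        · refine hwj.2 ?_
          exact fun h' => hwj.1 (by rw [h']; rfl)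
      have h2 := card_le_card h1
      rw [card_map, card_univ, Fintype.card_fin] at h2
      omega

/-! ### The theorem -/

/-- For all graphs `G` with `i(G), i(Gᶜ) ≥ 2` one has `(√(i(G) - 1) + √(i(Gᶜ) - 1))² ≤ |V|`, and
the maximum `M n` of `i(G) i(Gᶜ)` over the graphs on `n` vertices is determined for every
`n ≥ 1`. -/
theorem result :
    (∀ (V : Type) [Fintype V] (G : SimpleGraph V), 2 ≤ indDom G → 2 ≤ indDom Gᶜ →
      (√((indDom G : ℝ) - 1) + √((indDom Gᶜ : ℝ) - 1)) ^ 2 ≤ Fintype.card V) ∧
    (∀ k : ℕ, 1 ≤ k → M (4 * k) = (k + 1) ^ 2) ∧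
    (∀ k : ℕ, M (4 * k + 2) = (k + 1) * (k + 2)) ∧
    (∀ k : ℕ, k ≠ 1 → (∀ j : ℕ, 1 ≤ j → k ≠ j * (j + 1)) → M (4 * k + 1) = (k + 1) ^ 2) ∧
    (∀ j : ℕ, 1 ≤ j → M (4 * (j * (j + 1)) + 1) = (j * (j + 1) + 1) ^ 2 + 1) ∧
    M 5 = 5 ∧
    (∀ k : ℕ, k ≠ 1 → (∀ j : ℕ, k + 1 ≠ j ^ 2) → M (4 * k + 3) = (k + 1) * (k + 2)) ∧
    (∀ j : ℕ, 1 ≤ j → M (4 * j ^ 2 - 1) = j ^ 2 * (j ^ 2 + 1) + 1) ∧
    M 7 = 7 := by
  refine ⟨?_, ?_, ?_, ?_, ?_, ?_, ?_, ?_, ?_⟩
  · intro V _ G h1 h2
    classical
    have hV : Nonempty V := by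
      by_contra hV
      rw [not_nonempty_iff] at hV
      have h3 : indDom G ≤ 0 := by
        have h4 : IndDom G (∅ : Finset V) := ⟨fun u hu => by simp at hu, fun v => isEmptyElim v⟩
        simpa using indDom_le h4
      omega
    have h3 := main_real G (indDom G - 1) (indDom Gᶜ - 1) (by omega) (by omega)
      (fun D hD => by have := indDom_le hD; omega) (fun D hD => by have := indDom_le hD; omega)
    rwa [Nat.cast_sub (by omega), Nat.cast_sub (by omega), Nat.cast_one] at h3
  · intro k hk
    apply le_antisymm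
    · refine upper _ _ (by omega) (by nlinarith) ?_
      intro A B d hA hB hn h
      have := num0 k A B d (by exact_mod_cast hA) (by exact_mod_cast hB) (by positivity)
        (by exact_mod_cast hn) (by exact_mod_cast h)
      exact_mod_cast this
    · have := lower (4 * k) k k k k hk hk le_rfl (by ring)
      nlinarith
  · intro k
    apply le_antisymm
    · refine upper _ _ (by omega) (by nlinarith [Nat.le_mul_self k]) ?_
      intro A B d hA hB hn h
      have := num2 k A B d (by exact_mod_cast hA) (by exact_mod_cast hB) (by positivity)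
        (by exact_mod_cast hn) (by exact_mod_cast h)
      exact_mod_cast this
    · rcases Nat.eq_zero_or_pos k with rfl | hk
      · exact lower0 2 (by norm_num)
      · have := lower (4 * k + 2) (k + 1) k (k + 1) k (by omega) hk le_rfl (by ring)
        nlinarith
  · intro k hk1 hk
    rcases Nat.eq_zero_or_pos k with rfl | hk0
    · apply le_antisymm
      · refine upper _ _ (by omega) (by norm_num) ?_
        intro A B d hA hB hn h
        omega
      · exact lower0 1 le_rfl
    apply le_antisymm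
    · refine upper _ _ (by omega) (by nlinarith [show 2 ≤ k by omega]) ?_
      intro A B d hA hB hn h
      have := num1 k A B d (by exact_mod_cast hA) (by exact_mod_cast hB) (by positivity)
        (by exact_mod_cast hn) (by exact_mod_cast h)
      rcases this with this | ⟨e1, e2⟩
      · exact_mod_cast this
      · exfalso
        have e1' : A + B = 2 * k + 1 := by exact_mod_cast e1
        have e2' : A * B = k ^ 2 := by exact_mod_cast e2
        clear e1 e2 h hn hk1
        wlog hBA : B ≤ A generalizing A B with H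
        · exact H B A hB hA (by omega) (by rw [mul_comm]; exact e2') (by omega)
        obtain ⟨c, rfl⟩ := Nat.exists_eq_add_of_le hBA
        -- `c ^ 2 = 4 k + 1`
        have e3 : c ^ 2 = 4 * k + 1 := by nlinarith
        obtain ⟨j, hj⟩ : ∃ j, c = 2 * j + 1 := by
          rcases Nat.even_or_odd' c with ⟨j, hj | hj⟩
          · exfalso
            rw [hj] at e3
            have : (2 * j) ^ 2 = 4 * j ^ 2 := by ring
            omega
          · exact ⟨j, hj⟩
        have e4 : k = j * (j + 1) := by rw [hj] at e3; nlinarith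
        rcases Nat.eq_zero_or_pos j with rfl | hj0
        · omega
        · exact hk j hj0 e4
    · have := lower (4 * k + 1) k k (k + 1) k hk0 hk0 (by nlinarith) (by ring)
      nlinarith
  · intro j hj
    have hm : ∀ m : ℕ, 2 ≤ m → 4 * m + 1 ≤ (m + 1) ^ 2 + 1 := fun m hm => by nlinarith
    apply le_antisymm
    · refine upper _ _ (by omega) (hm _ (by nlinarith)) ?_
      intro A B d hA hB hn h
      have := num1 (j * (j + 1) : ℕ) A B d (by exact_mod_cast hA) (by exact_mod_cast hB)
        (by positivity) (by exact_mod_cast hn) (by exact_mod_cast h)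
      rcases this with this | ⟨e1, e2⟩
      · have h1 : (A + 1) * (B + 1) ≤ (j * (j + 1) + 1) ^ 2 := by exact_mod_cast this
        omega
      · have e1' : A + B = 2 * (j * (j + 1)) + 1 := by exact_mod_cast e1
        have e2' : A * B = (j * (j + 1)) ^ 2 := by exact_mod_cast e2
        nlinarith
    · have := lower (4 * (j * (j + 1)) + 1) ((j + 1) ^ 2) (j ^ 2) (j * (j + 1)) (j * (j + 1))
        (Nat.one_le_pow _ _ (by omega)) (Nat.one_le_pow _ _ hj) (by nlinarith) (by ring)
      nlinarith
  · apply le_antisymm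
    · refine upper _ _ (by omega) le_rfl ?_
      intro A B d hA hB hn h
      have := num1 1 A B d (by exact_mod_cast hA) (by exact_mod_cast hB) (by positivity)
        (by exact_mod_cast hn) (by exact_mod_cast h)
      rcases this with this | ⟨e1, e2⟩
      · have h1 : (A + 1) * (B + 1) ≤ 4 := by exact_mod_cast this
        omega
      · have e1' : A + B = 3 := by exact_mod_cast e1
        have e2' : A * B = 1 := by exact_mod_cast e2
        nlinarith
    · exact lower0 5 (by norm_num)
  · intro k hk1 hk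
    have hk0 : 1 ≤ k := by
      rcases Nat.eq_zero_or_pos k with rfl | hk0
      · exact absurd rfl (hk 1)
      · exact hk0
    apply le_antisymm
    · refine upper _ _ (by omega) (by nlinarith [show 2 ≤ k by omega]) ?_
      intro A B d hA hB hn h
      have := num3 k A B d (by exact_mod_cast hA) (by exact_mod_cast hB) (by positivity)
        (by exact_mod_cast hn) (by exact_mod_cast h)
      rcases this with this | ⟨e1, e2⟩
      · exact_mod_cast this
      · exfalso
        have e1' : A + B = 2 * k + 2 := by exact_mod_cast e1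
        have e2' : A * B = k ^ 2 + k := by exact_mod_cast e2
        clear e1 e2 h hn hk1
        wlog hBA : B ≤ A generalizing A B with H
        · exact H B A hB hA (by omega) (by rw [mul_comm]; exact e2') (by omega)
        obtain ⟨c, rfl⟩ := Nat.exists_eq_add_of_le hBA
        have e3 : c ^ 2 = 4 * (k + 1) := by nlinarith
        obtain ⟨j, hj⟩ : ∃ j, c = 2 * j := by
          rcases Nat.even_or_odd' c with ⟨j, hj | hj⟩
          · exact ⟨j, hj⟩
          · exfalso
            rw [hj] at e3
            have : (2 * j + 1) ^ 2 = 4 * (j ^ 2 + j) + 1 := by ring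
            omega
        exact hk j (by rw [hj] at e3; nlinarith)
    · have := lower (4 * k + 3) (k + 1) k (k + 2) k (by omega) hk0 (by nlinarith) (by ring)
      nlinarith
  · intro j hj
    obtain ⟨k, hk⟩ : ∃ k, j ^ 2 = k + 1 :=
      ⟨j ^ 2 - 1, by have : 1 ≤ j ^ 2 := Nat.one_le_pow _ _ hj
                     omega⟩
    have hn : 4 * j ^ 2 - 1 = 4 * k + 3 := by omega
    rw [hn, hk]
    apply le_antisymm
    · refine upper _ _ (by omega) (by nlinarith [sq_nonneg ((k : ℤ) - 1)]) ?_
      intro A B d hA hB hn h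
      have := num3 k A B d (by exact_mod_cast hA) (by exact_mod_cast hB)
        (by positivity) (by exact_mod_cast hn) (by exact_mod_cast h)
      rcases this with this | ⟨e1, e2⟩
      · have h1 : (A + 1) * (B + 1) ≤ (k + 1) * (k + 2) := by exact_mod_cast this
        nlinarith
      · have e1' : A + B = 2 * k + 2 := by exact_mod_cast e1
        have e2' : A * B = k ^ 2 + k := by exact_mod_cast e2
        nlinarith
    · rcases Nat.eq_zero_or_pos k with rfl | hk0
      · exact lower0 3 (by norm_num)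
      · have hj2 : 2 ≤ j := by
          by_contra hj2
          have : j = 1 := by omega
          subst this
          omega
        have hjk : j < k + 1 := by nlinarith
        obtain ⟨m, hm⟩ := Nat.exists_eq_add_of_lt hjk
        have h1 := lower (4 * k + 3) (k + 1 + j) (m + 1) (k + 1) k (by omega) (by omega)
          (by nlinarith) (by omega)
        nlinarith
  · apply le_antisymm
    · refine upper _ _ (by omega) le_rfl ?_
      intro A B d hA hB hn h
      have := num3 1 A B d (by exact_mod_cast hA) (by exact_mod_cast hB) (by positivity)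
        (by exact_mod_cast hn) (by exact_mod_cast h)
      rcases this with this | ⟨e1, e2⟩
      · have h1 : (A + 1) * (B + 1) ≤ 6 := by exact_mod_cast this
        omega
      · exfalso
        have e1' : A + B = 4 := by exact_mod_cast e1
        have e2' : A * B = 2 := by exact_mod_cast e2
        have hA3 : A ≤ 3 := by omega
        interval_cases A <;> omega
    · exact lower0 7 (by norm_num)

end Pool.Agent.Results.MP_04d992_co.ExactMaximum
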